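import Mathlib
import Pool.Agent.Helper87.LD.Defs

/-!
# DG: tuples of forms which are good over all small extensions of the prime field
-/

set_option autoImplicit false

namespace Pool.Agent.Helper26.DG

open MvPolynomial Pool.Agent.Helper87.LD

/-- The map given by the forms `F i` over the prime field is defined at all points of projective
space over the fields with at most `p ^ D` elements, and unramified at the periodic ones. -/
def GoodD {n p : ℕ} (D : ℕ) (F : Fin n → MvPolynomial (Fin n) (ZMod p)) : Prop :=
  ∀ (κ : Type) [Field κ] [Finite κ] (φ : ZMod p →+* κ), Nat.card κ ≤ p ^ D →
    Good fun i => map φ (F i)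

end Pool.Agent.Helper26.DG
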