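import Mathlib
import Pool.Agent.Helper26.DG.Defs

/-!
# DG: forms without zeros over the small extensions of the prime field
-/

set_option autoImplicit false

namespace Pool.Agent.Helper26.DG

open MvPolynomial Pool.Agent.Helper87.LD

/-- the elements of the fields with at most `p ^ D` elements are fixed by a common power of
Frobenius -/
theorem pow_fix {p : ℕ} [hp : Fact p.Prime] (D : ℕ) {κ : Type} [Field κ] [Finite κ] [CharP κ p]
    (h : Nat.card κ ≤ p ^ D) (a : κ) : a ^ p ^ D.factorial = a := by
  have := Fintype.ofFinite κ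
  obtain ⟨n, -, hn⟩ := FiniteField.card κ p
  have hcard : Nat.card κ = p ^ (n : ℕ) := by rw [Nat.card_eq_fintype_card, hn]
  have hnD : (n : ℕ) ≤ D := by
    rw [hcard] at h
    exact (Nat.pow_le_pow_iff_right hp.out.one_lt).1 h
  obtain ⟨k, hk⟩ : (n : ℕ) ∣ D.factorial := Nat.dvd_factorial n.pos hnD
  rw [hk, pow_mul]
  have h1 : ∀ k : ℕ, a ^ (p ^ (n : ℕ)) ^ k = a := by
    intro k
    induction k with
    | zero => rw [pow_zero, pow_one]
    | succ k ih => rw [pow_succ, pow_mul, ih, ← hn, FiniteField.pow_card]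
  exact h1 k

/-- a form without zeros over the small fields, of degree prime to `p` -/
theorem exists_anisoD (p : ℕ) [hp : Fact p.Prime] (D n : ℕ) :
    ∃ (e : ℕ) (g : MvPolynomial (Fin n) ℤ), ¬ p ∣ e ∧ g.IsHomogeneous e ∧
      ∀ (κ : Type) [Field κ] [Finite κ] [CharP κ p], Nat.card κ ≤ p ^ D →
        ∀ x : Fin n → κ, x ≠ 0 → aeval x g ≠ 0 := by
  have hpp := hp.out
  set q := p ^ D.factorial with hq
  have hq2 : 2 ≤ q := by
    calc 2 ≤ p := hpp.two_le
      _ = p ^ 1 := (pow_one p).symm
      _ ≤ q := Nat.pow_le_pow_right hpp.pos (Nat.factorial_pos D)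
  have hpq : p ∣ q := dvd_pow_self p (Nat.factorial_pos D).ne'
  have hpq1 : ¬ p ∣ q + 1 := by
    intro h
    have h1 := (Nat.dvd_add_right hpq).1 h
    exact hpp.one_lt.ne' (Nat.dvd_one.1 h1)
  induction n with
  | zero =>
    refine ⟨1, 0, ?_, isHomogeneous_zero _ _ _, fun κ _ _ _ _ x hx =>
      absurd (Subsingleton.elim x 0) hx⟩
    rw [Nat.dvd_one]
    exact hpp.one_lt.ne'
  | succ n ih =>
    obtain ⟨e, g, he, hg, hgx⟩ := ih
    have he0 : e ≠ 0 := by rintro rfl; exact he (dvd_zero p)
    set G := rename (Fin.succ (n := n)) g with hG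
    set Y : MvPolynomial (Fin (n + 1)) ℤ := X 0 ^ e with hY
    have hGh : G.IsHomogeneous e := hg.rename_isHomogeneous
    have hYh : Y.IsHomogeneous e := by
      have := (isHomogeneous_X ℤ (0 : Fin (n + 1))).pow e
      rwa [one_mul] at this
    refine ⟨e * (q + 1), G ^ (q + 1) - G ^ 2 * Y ^ (q - 1) + Y ^ (q + 1), ?_, ?_, ?_⟩
    · intro h
      rcases hpp.dvd_mul.1 h with h1 | h1
      · exact he h1
      · exact hpq1 h1
    · refine IsHomogeneous.add (IsHomogeneous.sub (hGh.pow _) ?_) (hYh.pow _)
      have h1 := (hGh.pow 2).mul (hYh.pow (q - 1))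
      have h2 : e * 2 + e * (q - 1) = e * (q + 1) := by
        rw [← mul_add]
        congr 1
        omega
      rwa [h2] at h1
    · intro κ _ _ _ hκ x hx h0
      set a : κ := aeval (fun i => x (Fin.succ i)) g with ha
      set b : κ := x 0 ^ e with hb
      have h1 : aeval x (G ^ (q + 1) - G ^ 2 * Y ^ (q - 1) + Y ^ (q + 1)) =
          a ^ (q + 1) - a ^ 2 * b ^ (q - 1) + b ^ (q + 1) := by
        have h2 : aeval x G = a := by
          rw [hG, aeval_rename]
          rfl
        have h3 : aeval x Y = b := by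
          rw [hY, map_pow, aeval_X]
        simp only [map_add, map_sub, map_mul, map_pow, h2, h3]
      rw [h1] at h0
      have haq : a ^ (q + 1) = a ^ 2 := by
        rw [pow_succ, pow_fix D hκ, sq]
      have hbq : b ^ (q + 1) = b ^ 2 := by
        rw [pow_succ, pow_fix D hκ, sq]
      rw [haq, hbq] at h0
      by_cases hb0 : b = 0
      · have h2 : b ^ (q - 1) = 0 := by
          rw [hb0, zero_pow (by omega)]
        rw [h2, hb0] at h0
        have h3 : a ^ 2 = 0 := by
          have : a ^ 2 - a ^ 2 * 0 + 0 ^ 2 = a ^ 2 := by ring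
          rwa [this] at h0
        have h4 : a = 0 := by
          rwa [pow_eq_zero_iff two_ne_zero] at h3
        have hx0 : x 0 = 0 := by
          rw [hb, pow_eq_zero_iff he0] at hb0
          exact hb0
        refine hgx κ hκ (fun i => x (Fin.succ i)) ?_ h4
        intro h5
        apply hx
        funext i
        refine Fin.cases hx0 (fun j => congrFun h5 j) i
      · have h2 : b ^ (q - 1) = 1 := by
          have h3 : b ^ (q - 1) * b = 1 * b := by
            rw [← pow_succ, one_mul]
            have h4 : q - 1 + 1 = q := by omega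
            rw [h4]
            exact pow_fix D hκ b
          exact mul_right_cancel₀ hb0 h3
        rw [h2, mul_one, sub_self, zero_add, pow_eq_zero_iff two_ne_zero] at h0
        exact hb0 h0

/-- a form without zeros over the small fields which makes the degree prime to `p` -/
theorem exists_multD (p : ℕ) [hp : Fact p.Prime] (D n d : ℕ) :
    ∃ (e : ℕ) (g : MvPolynomial (Fin n) ℤ), ¬ p ∣ e + d ∧ g.IsHomogeneous e ∧
      ∀ (κ : Type) [Field κ] [Finite κ] [CharP κ p], Nat.card κ ≤ p ^ D →
        ∀ x : Fin n → κ, x ≠ 0 → aeval x g ≠ 0 := by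
  by_cases h : p ∣ d
  · obtain ⟨e, g, he, hg, hx⟩ := exists_anisoD p D n
    exact ⟨e, g, fun h1 => he ((Nat.dvd_add_left h).1 h1), hg, hx⟩
  · refine ⟨0, 1, by rwa [zero_add], isHomogeneous_one _ _, fun κ _ _ _ _ x _ => ?_⟩
    rw [map_one]
    exact one_ne_zero

end Pool.Agent.Helper26.DG
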