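import Mathlib
import Pool.Agent.Helper26.FV.Core

/-!
# DG: maps which become good after multiplication with a form
-/

set_option autoImplicit false

namespace Pool.Agent.Helper26.DG

open MvPolynomial Pool.Agent.Helper86.DML Pool.Agent.Helper26.FD Pool.Agent.Helper26.FU
open Pool.Agent.Helper26.FV (coreC)

noncomputable section

variable {p : ℕ} [hp : Fact p.Prime] {n : ℕ}

theorem div_mem_alg {L : Subalgebra ℚ_[p] (PadicAlgCl p)} [FiniteDimensional ℚ_[p] L]
    {a b : PadicAlgCl p} (ha : a ∈ L) (hb : b ∈ L) : a / b ∈ L := by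
  have hint : IsIntegral ℚ_[p] b := (Algebra.IsAlgebraic.isAlgebraic b).isIntegral
  rw [div_eq_mul_inv]
  exact mul_mem ha (hint.inv_mem hb)

/-- a good map preserves the points with coordinates in `L` -/
theorem good_step {d : ℕ} {L : Subalgebra ℚ_[p] (PadicAlgCl p)} [FiniteDimensional ℚ_[p] L]
    {P : Fin n → MvPolynomial (Fin n) ℂ} (hP : ∀ i, (P i).IsHomogeneous d)
    {τ : ℂ →+* PadicAlgCl p} (hPL : ∀ i t, τ (coeff t (P i)) ∈ L)
    (hgood : GoodPad (L : Set (PadicAlgCl p)) (fun i => MvPolynomial.map τ (P i)))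
    {y : Fin n → ℂ} (hy : y ≠ 0) (hyL : ∀ i j, τ (y i / y j) ∈ L) :
    pmap P y ≠ 0 ∧ ∀ i j, τ (pmap P y i / pmap P y j) ∈ L := by
  have hne : (Finset.univ : Finset (Fin n)).Nonempty := by
    obtain ⟨i, -⟩ := Function.ne_iff.1 hy
    exact ⟨i, Finset.mem_univ i⟩
  obtain ⟨i₀, -, hmax⟩ := Finset.exists_max_image Finset.univ (fun i => ‖τ (y i)‖) hne
  have h0 : τ (y i₀) ≠ 0 := by
    intro h
    apply hy
    funext i
    have h1 := hmax i (Finset.mem_univ i)
    rw [h, norm_zero] at h1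
    exact (map_eq_zero τ).1 (norm_le_zero_iff.1 h1)
  have h0' : y i₀ ≠ 0 := fun h => h0 (by rw [h, map_zero])
  let z : Fin n → ℂ := fun i => y i / y i₀
  have hz : ∀ i, ‖τ (z i)‖ ≤ 1 := by
    intro i
    simp only [z]
    rw [map_div₀, norm_div, div_le_one (norm_pos_iff.2 h0)]
    exact hmax i (Finset.mem_univ i)
  have hz1 : z i₀ = 1 := div_self h0'
  have hyz : y = fun i => y i₀ * z i := by
    funext i
    simp only [z]
    rw [mul_div_cancel₀ _ h0']
  have hPy : pmap P y = fun i => y i₀ ^ d * pmap P z i := by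
    conv_lhs => rw [hyz]
    funext i
    exact eval_smul_hom' (hP i) _ _
  have hev : ∀ i, τ (pmap P z i) = eval (fun j => τ (z j)) (MvPolynomial.map τ (P i)) := fun i =>
    Pool.Agent.Helper87.LD.eval_hom τ (P i) z
  have hzL : ∀ i, τ (pmap P z i) ∈ L := by
    intro i
    rw [hev, eval_eq]
    refine sum_mem fun t _ => mul_mem ?_ (prod_mem fun j _ => pow_mem (hyL j i₀) _)
    rw [coeff_map]
    exact hPL i t
  constructor
  · obtain ⟨i, hi⟩ := (hgood (fun j => τ (z j)) (fun j => hyL j i₀) hz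
      ⟨i₀, by rw [hz1, map_one, norm_one]⟩).1
    rw [← hev] at hi
    intro h
    have h1 := congrFun (hPy.symm.trans h) i
    have h2 := (mul_eq_zero.1 h1).resolve_left (pow_ne_zero _ h0')
    rw [h2, map_zero, norm_zero] at hi
    exact zero_ne_one hi
  · intro i j
    rw [hPy]
    beta_reduce
    rw [mul_div_mul_left _ _ (pow_ne_zero _ h0'), map_div₀]
    exact div_mem_alg (hzL i) (hzL j)

/-- **The core.** -/
theorem coreG (hp3 : 3 ≤ p) (k n d e D δ : ℕ) (hd : 1 ≤ d) : ∃ K : ℕ,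
    ∀ (L : Subalgebra ℚ_[p] (PadicAlgCl p)) [FiniteDimensional ℚ_[p] L],
      Module.finrank ℚ_[p] L ≤ D →
    ∀ P : Fin k → Fin n → MvPolynomial (Fin n) ℂ, (∀ b i, (P b i).IsHomogeneous d) →
    ∀ g : Fin k → MvPolynomial (Fin n) ℂ, (∀ b, (g b).IsHomogeneous e) →
    ∀ τ : ℂ →+* PadicAlgCl p, (∀ b i t, ‖τ (coeff t (g b * P b i))‖ ≤ 1) →
      (∀ b i t, τ (coeff t (g b * P b i)) ∈ L) →
      (∀ b, GoodPad (L : Set (PadicAlgCl p)) (fun i => MvPolynomial.map τ (g b * P b i))) →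
    ∀ α : Fin k → Fin n → ℂ, (∀ b, α b ≠ 0) → (∀ b i j, τ (α b i / α b j) ∈ L) →
    ∀ G : MvPolynomial (Fin k × Fin n) ℂ, MultiHom G → G.totalDegree ≤ δ → ∀ r : ℕ,
      {m | eval (fun c => (pmap (P c.1))^[bd (k * n) p D + r +
        (bd (k * n) p D).factorial * (bd (k * n) p D).factorial * m] (α c.1) c.2) G = 0}.encard ≤ K ∨
        ∀ m, eval (fun c => (pmap (P c.1))^[bd (k * n) p D + r +
          (bd (k * n) p D).factorial * (bd (k * n) p D).factorial * m] (α c.1) c.2) G = 0 := by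
  classical
  obtain ⟨K, hK⟩ := coreC hp3 k n (e + d) D δ (by omega)
  refine ⟨K, ?_⟩
  intro L _ hL P hP g hg τ hP1 hPL hgood α hα hαL G hG hGδ r
  have hP' : ∀ b i, (g b * P b i).IsHomogeneous (e + d) := fun b i => (hg b).mul (hP b i)
  have h1 := hK L hL (fun b i => g b * P b i) hP' τ hP1 hPL hgood α hα hαL G hG hGδ r
  -- the orbits
  have horb : ∀ b m, (pmap fun i => g b * P b i)^[m] (α b) ≠ 0 ∧
      ∀ i j, τ ((pmap fun i => g b * P b i)^[m] (α b) i /
        (pmap fun i => g b * P b i)^[m] (α b) j) ∈ L := by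
    intro b m
    induction m with
    | zero => exact ⟨hα b, hαL b⟩
    | succ m ih =>
      rw [Function.iterate_succ_apply']
      exact good_step (hP' b) (hPL b) (hgood b) ih.1 ih.2
  have hgne : ∀ b m, eval ((pmap fun i => g b * P b i)^[m] (α b)) (g b) ≠ 0 := by
    intro b m h
    apply (horb b (m + 1)).1
    rw [Function.iterate_succ_apply']
    funext i
    rw [pmap, map_mul, h, zero_mul]
    rfl
  have hmult : ∀ b m, ∃ t : ℂ, t ≠ 0 ∧ (pmap fun i => g b * P b i)^[m] (α b) =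
      fun i => t * (pmap (P b))^[m] (α b) i := by
    intro b m
    obtain ⟨t, ht, htu⟩ := Pool.Agent.Helper87.LD.iterate_mult (hP b) (g b) (α b) m
    exact ⟨t, (htu fun k _ => isUnit_iff_ne_zero.2 (hgne b k)).ne_zero, ht⟩
  obtain ⟨γ, hγ⟩ := hG
  have hiff : ∀ m, eval (fun c : Fin k × Fin n =>
      (pmap fun i => g c.1 * P c.1 i)^[m] (α c.1) c.2) G = 0 ↔
      eval (fun c : Fin k × Fin n => (pmap (P c.1))^[m] (α c.1) c.2) G = 0 := by
    intro m
    choose t ht h2 using fun b => hmult b m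
    simp only [h2]
    have h3 := eval_multi hγ t (fun b i => (pmap (P b))^[m] (α b) i)
    rw [h3]
    constructor
    · intro h5
      exact (mul_eq_zero.1 h5).resolve_left
        (Finset.prod_ne_zero_iff.2 fun b _ => pow_ne_zero _ (ht b))
    · intro h5
      rw [h5, mul_zero]
  simp only [hiff] at h1
  exact h1

end

end Pool.Agent.Helper26.DG
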