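import Mathlib
import Pool.Agent.Helper26.DG.Aniso
import Pool.Agent.Helper26.FU.Loc
import Pool.Agent.Helper87.LD.Local

/-!
# DG: good maps over the valuation ring from good maps over the small fields
-/

set_option autoImplicit false

namespace Pool.Agent.Helper26.DG

open MvPolynomial Pool.Agent.Helper86.DML Pool.Agent.Helper26.FD Pool.Agent.Helper26.FU
open Pool.Agent.Helper87.LD (Good PPer Etale ev jac det_ne_zero iterate_mult hom_padic_eq
  pmap_map_iterate)

noncomputable section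

variable {p : ℕ} [hp : Fact p.Prime] {n : ℕ}

/-- the elements of norm less than one of a ring of elements of norm at most one -/
def nIdeal (O : Subalgebra ℤ_[p] (PadicAlgCl p)) (hO : ∀ z ∈ O, ‖z‖ ≤ 1) : Ideal O where
  carrier := {x | ‖(x : PadicAlgCl p)‖ < 1}
  zero_mem' := by simp
  add_mem' := by
    intro a b ha hb
    have h := PadicAlgCl.isNonarchimedean p (a : PadicAlgCl p) (b : PadicAlgCl p)
    exact lt_of_le_of_lt h (max_lt ha hb)
  smul_mem' := by
    intro c x hx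
    have h1 : ‖(c : PadicAlgCl p)‖ ≤ 1 := hO _ c.2
    have h2 : ‖(x : PadicAlgCl p)‖ < 1 := hx
    show ‖((c • x : O) : PadicAlgCl p)‖ < 1
    rw [smul_eq_mul, MulMemClass.coe_mul, norm_mul]
    calc ‖(c : PadicAlgCl p)‖ * ‖(x : PadicAlgCl p)‖ ≤ 1 * ‖(x : PadicAlgCl p)‖ :=
          mul_le_mul_of_nonneg_right h1 (norm_nonneg _)
      _ < 1 := by rw [one_mul]; exact h2

theorem mem_nIdeal {O : Subalgebra ℤ_[p] (PadicAlgCl p)} {hO : ∀ z ∈ O, ‖z‖ ≤ 1} {x : O} :
    x ∈ nIdeal O hO ↔ ‖(x : PadicAlgCl p)‖ < 1 := Iff.rfl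

theorem nIdeal_isMaximal (O : Subalgebra ℤ_[p] (PadicAlgCl p)) (hO : ∀ z ∈ O, ‖z‖ ≤ 1) :
    (nIdeal O hO).IsMaximal := by
  rw [Ideal.isMaximal_iff]
  constructor
  · rw [mem_nIdeal]
    simp
  · intro J x _ hx hxJ
    rw [mem_nIdeal, not_lt] at hx
    have h1 : ‖(x : PadicAlgCl p)‖ = 1 := le_antisymm (hO _ x.2) hx
    have hx0 : (x : PadicAlgCl p) ≠ 0 := by
      intro h0
      rw [h0, norm_zero] at h1
      exact zero_ne_one h1
    have h2 : IsUnit x := isUnit_of_isIntegral_inv O x hx0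
      (isIntegral_of_norm_le_one _ (by rw [norm_inv, h1, inv_one]))
    rw [Ideal.eq_top_of_isUnit_mem J hxJ h2]
    exact Submodule.mem_top

theorem goodPad_of_goodD {d e D : ℕ} {g : MvPolynomial (Fin n) ℤ} (hg : g.IsHomogeneous e)
    (hpe : ¬ p ∣ e + d) (hgx : ∀ (κ : Type) [Field κ] [Finite κ] [CharP κ p], Nat.card κ ≤ p ^ D →
      ∀ x : Fin n → κ, x ≠ 0 → aeval x g ≠ 0)
    {F : Fin n → MvPolynomial (Fin n) ℤ_[p]} (hF : ∀ i, (F i).IsHomogeneous d)
    (hG : GoodD D fun i => map PadicInt.toZMod (F i)) (L : Subalgebra ℚ_[p] (PadicAlgCl p))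
    [FiniteDimensional ℚ_[p] L] (hL : Module.finrank ℚ_[p] L ≤ D) :
    GoodPad (L : Set (PadicAlgCl p)) (fun i => map (Int.castRingHom (PadicAlgCl p)) g *
      map (algebraMap ℤ_[p] (PadicAlgCl p)) (F i)) := by
  classical
  intro x hxL hx1 ⟨i₁, hi₁⟩
  let A : Set (PadicAlgCl p) := Set.range x
  have hA1 : ∀ a ∈ A, ‖a‖ ≤ 1 := by
    rintro a ⟨i, rfl⟩
    exact hx1 i
  let O : Subalgebra ℤ_[p] (PadicAlgCl p) := Algebra.adjoin ℤ_[p] A
  obtain ⟨hfin, hfree⟩ := adjoin_finite (p := p) (Set.finite_range x)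
    (fun a ha => isIntegral_of_norm_le_one _ (hA1 a ha))
  have hOL : ∀ z ∈ O, z ∈ L.toSubmodule := by
    intro z hz
    have h1 : O ≤ L.restrictScalars ℤ_[p] := Algebra.adjoin_le (by
      rintro _ ⟨i, rfl⟩
      exact hxL i)
    exact h1 hz
  have hrank : Module.finrank ℤ_[p] O ≤ D := by
    have : FiniteDimensional ℚ_[p] L.toSubmodule :=
      (inferInstance : FiniteDimensional ℚ_[p] L)
    exact (finrank_subalgebra_le O L.toSubmodule hOL).trans hL
  have hO : ∀ z ∈ O, ‖z‖ ≤ 1 := fun z hz => norm_adjoin_le hA1 hz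
  let m : Ideal O := nIdeal O hO
  have hm : m.IsMaximal := nIdeal_isMaximal O hO
  let : Field (O ⧸ m) := Ideal.Quotient.field m
  let π : O →+* O ⧸ m := Ideal.Quotient.mk m
  obtain ⟨hfm, hcm⟩ := card_residue_le (p := p) m
  have hcm' : Nat.card (O ⧸ m) ≤ p ^ D := hcm.trans (Nat.pow_le_pow_right hp.out.pos hrank)
  have hπp : π (p : O) = 0 := Ideal.Quotient.eq_zero_iff_mem.2 (p_mem_maximal m)
  have hpk : ((p : ℕ) : O ⧸ m) = 0 := by
    have h1 := hπp
    rw [map_natCast] at h1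
    exact h1
  have hchar : CharP (O ⧸ m) p := ringChar.of_eq (CharP.ringChar_of_prime_eq_zero hp.out hpk)
  let φ : ZMod p →+* O ⧸ m := ZMod.castHom (dvd_refl p) (O ⧸ m)
  have hφ : π.comp (algebraMap ℤ_[p] O) = φ.comp PadicInt.toZMod :=
    RingHom.ext fun z => hom_padic_eq (π.comp (algebraMap ℤ_[p] O)) z
  have hunit : ∀ z : O, π z ≠ 0 → ‖(z : PadicAlgCl p)‖ = 1 := by
    intro z hz
    refine le_antisymm (hO _ z.2) (not_lt.1 fun hlt => hz ?_)
    exact Ideal.Quotient.eq_zero_iff_mem.2 hlt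
  -- the lifted map
  let x' : Fin n → O := fun i => ⟨x i, Algebra.subset_adjoin ⟨i, rfl⟩⟩
  let H : Fin n → MvPolynomial (Fin n) O := fun i =>
    map (Int.castRingHom O) g * map (algebraMap ℤ_[p] O) (F i)
  let ι : O →+* PadicAlgCl p := O.val
  have hHι : (fun i => map ι (H i)) = fun i => map (Int.castRingHom (PadicAlgCl p)) g *
      map (algebraMap ℤ_[p] (PadicAlgCl p)) (F i) := by
    funext i
    have h1 : ι.comp (Int.castRingHom O) = Int.castRingHom (PadicAlgCl p) := RingHom.ext_int _ _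
    have h2 : ι.comp (algebraMap ℤ_[p] O) = algebraMap ℤ_[p] (PadicAlgCl p) := rfl
    simp only [H]
    rw [map_mul, map_map, map_map, h1, h2]
  set gκ : MvPolynomial (Fin n) (O ⧸ m) := map (Int.castRingHom (O ⧸ m)) g with hgκ
  set Fκ : Fin n → MvPolynomial (Fin n) (O ⧸ m) := fun i => map φ (map PadicInt.toZMod (F i))
    with hFκ
  have hHπ : (fun i => map π (H i)) = fun i => gκ * Fκ i := by
    funext i
    have h1 : π.comp (Int.castRingHom O) = Int.castRingHom (O ⧸ m) := RingHom.ext_int _ _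
    simp only [H]
    rw [map_mul, map_map, map_map, h1, hφ, hFκ]
    beta_reduce
    rw [map_map]
  have hgood : Good Fκ := hG (O ⧸ m) φ hcm'
  have hgκx : ∀ y : Fin n → O ⧸ m, y ≠ 0 → eval y gκ ≠ 0 := by
    intro y hy
    have h1 := hgx (O ⧸ m) hcm' y hy
    rw [aeval_def] at h1
    rw [hgκ, eval_map]
    exact h1
  have hFκhom : ∀ i, (Fκ i).IsHomogeneous d := fun i => ((hF i).map _).map _
  have hgκhom : gκ.IsHomogeneous e := hg.map _
  have hpe' : ((e + d : ℕ) : O ⧸ m) ≠ 0 := by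
    intro h
    exact hpe ((CharP.cast_eq_zero_iff (O ⧸ m) p _).1 h)
  have hne : (fun i => π (x' i)) ≠ 0 := by
    intro h
    have h1 : x' i₁ ∈ m := Ideal.Quotient.eq_zero_iff_mem.1 (congrFun h i₁)
    have h2 : ‖x i₁‖ < 1 := h1
    rw [hi₁] at h2
    exact lt_irrefl _ h2
  have hitι : ∀ k, (pmap fun i => map (Int.castRingHom (PadicAlgCl p)) g *
      map (algebraMap ℤ_[p] (PadicAlgCl p)) (F i))^[k] x = fun i => ι ((pmap H)^[k] x' i) := by
    intro k
    have h1 := pmap_map_iterate ι H k x'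
    rw [hHι] at h1
    exact h1
  have hitπ : ∀ k, (pmap fun i => gκ * Fκ i)^[k] (fun i => π (x' i)) =
      fun i => π ((pmap H)^[k] x' i) := by
    intro k
    have h1 := pmap_map_iterate π H k x'
    rw [hHπ] at h1
    exact h1
  have happ : ∀ y : Fin n → O ⧸ m, pmap (fun i => gκ * Fκ i) y =
      fun i => eval y gκ * ev Fκ y i := by
    intro y
    funext i
    rw [pmap, map_mul, ev]
  have hnek : ∀ k, (pmap fun i => gκ * Fκ i)^[k] (fun i => π (x' i)) ≠ 0 := by
    intro k
    induction k with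
    | zero => exact hne
    | succ k ih =>
      rw [Function.iterate_succ_apply', happ]
      intro h
      apply (hgood _ ih).1
      funext i
      exact (mul_eq_zero.1 (congrFun h i)).resolve_left (hgκx _ ih)
  refine ⟨?_, fun ℓ hℓ hper => ?_⟩
  · have h1 := hnek 1
    rw [hitπ] at h1
    obtain ⟨i, hi⟩ := Function.ne_iff.1 h1
    refine ⟨i, ?_⟩
    have h3 := congrFun (hitι 1) i
    rw [Function.iterate_one, Function.iterate_one] at h3
    have h4 : eval x (map (Int.castRingHom (PadicAlgCl p)) g *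
      map (algebraMap ℤ_[p] (PadicAlgCl p)) (F i)) = ι (pmap H x' i) := h3
    rw [h4]
    exact hunit _ hi
  · have hper' : (pmap fun i => gκ * Fκ i)^[ℓ] (fun j => π (x' j)) = fun j => π (x' j) := by
      rw [hitπ]
      funext i
      rw [Ideal.Quotient.eq, mem_nIdeal]
      have h2 := hper i
      rw [hitι] at h2
      exact h2
    obtain ⟨t, ht, htu⟩ := iterate_mult (F := Fκ) hFκhom gκ (fun j => π (x' j)) ℓ
    have ht0 : t ≠ 0 := (htu fun k _ => isUnit_iff_ne_zero.2 (hgκx _ (hnek k))).ne_zero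
    have hPP : PPer Fκ (fun j => π (x' j)) := by
      refine ⟨ℓ, hℓ, t⁻¹, inv_ne_zero ht0, ?_⟩
      have h6 : (fun j => t * (pmap Fκ)^[ℓ] (fun j => π (x' j)) j) = fun j => π (x' j) := by
        rw [← ht]
        exact hper'
      funext j
      have h7 := congrFun h6 j
      rw [Pi.smul_apply, smul_eq_mul, ← h7, inv_mul_cancel_left₀ ht0]
      rfl
    have h8 := det_ne_zero hFκhom hgκhom hpe' _ (hgκx _ hne) (hgood _ hne).1
      ((hgood _ hne).2 hPP)
    have h9 : (Matrix.of fun a b => eval (fun j => π (x' j)) (pderiv b (gκ * Fκ a))) =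
        π.mapMatrix (Matrix.of fun a b => eval x' (pderiv b (H a))) := by
      ext a b
      rw [RingHom.mapMatrix_apply, Matrix.map_apply, Matrix.of_apply, Matrix.of_apply,
        ← congrFun hHπ a, pderiv_map, eval_map, eval₂_comp]
      rfl
    rw [h9, ← RingHom.map_det] at h8
    have h10 := hunit _ h8
    have h11 := norm_det_map ι H x'
    have h12 : (Matrix.of fun i j => eval x (pderiv j (map (Int.castRingHom (PadicAlgCl p)) g *
        map (algebraMap ℤ_[p] (PadicAlgCl p)) (F i)))) =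
        Matrix.of fun i j => eval (fun a => ι (x' a)) (pderiv j (map ι (H i))) := by
      ext i j
      rw [Matrix.of_apply, Matrix.of_apply, congrFun hHι i]
      rfl
    rw [h12, ← h11]
    exact h10

end

end Pool.Agent.Helper26.DG
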