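import Mathlib
import Pool.Agent.Helper26.DG.Pad
import Pool.Agent.Helper26.DG.Core
import Pool.Agent.Helper26.FU.Asm
import Pool.Agent.Helper87.LD.MainV

/-!
# DG: one good prime, points of bounded degree over purely transcendental extensions
-/

set_option autoImplicit false

namespace Pool.Agent.Helper26.DG

open MvPolynomial Cardinal
open Pool.Agent.Helper86.DML (pmap)
open Pool.Agent.Helper26.FU (MultiHom GoodPad bd PurelyTranscendental exists_alg
  aleph0_lt_intermediate exists_embedding exists_lift_complex)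
open Pool.Agent.Helper87.LD (Idx form map_form form_isHomogeneous lc)
open Pool.Agent.Helper87.DMLP (primesFor)
open Pool.Agent.Helper87.MQ (exists_field_emb_compat)
open Pool.Agent.Helper26.LT (countable_closure)

noncomputable section

/-- the preperiod -/
def pre (k n p D : ℕ) : ℕ := bd (k * n) p D

/-- the period -/
def per (k n p D : ℕ) : ℕ := (bd (k * n) p D).factorial * (bd (k * n) p D).factorial

theorem per_pos (k n p D : ℕ) : 1 ≤ per k n p D :=
  Nat.mul_pos (Nat.factorial_pos _) (Nat.factorial_pos _)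

/-- the dichotomy over the closure of the `p`-adic numbers for maps with coefficients in `ℤ_p` -/
theorem dich_of_goodD {p : ℕ} [hp : Fact p.Prime] (hp3 : 3 ≤ p) (k n d D δ : ℕ) (hd : 1 ≤ d) :
    ∃ K : ℕ, ∀ c : Idx n d → ℤ_[p], GoodD D (form fun i => PadicInt.toZMod (c i)) →
      ∀ (L : Subalgebra ℚ_[p] (PadicAlgCl p)) [FiniteDimensional ℚ_[p] L],
      Module.finrank ℚ_[p] L ≤ D → ∀ (τ : ℂ →+* PadicAlgCl p) (b : Idx n d → ℂ),
      (∀ i, τ (b i) = algebraMap ℤ_[p] (PadicAlgCl p) (c i)) →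
      ∀ α : Fin k → Fin n → ℂ, (∀ b, α b ≠ 0) → (∀ b i j, τ (α b i / α b j) ∈ L) →
      ∀ G : MvPolynomial (Fin k × Fin n) ℂ, MultiHom G → G.totalDegree ≤ δ → ∀ r : ℕ,
      {m | eval (fun c => (pmap (form b))^[pre k n p D + r + per k n p D * m]
        (α c.1) c.2) G = 0}.encard ≤ K ∨
      ∀ m, eval (fun c => (pmap (form b))^[pre k n p D + r + per k n p D * m]
        (α c.1) c.2) G = 0 := by
  obtain ⟨e, g, hpe, hg, hgx⟩ := exists_multD p D n d
  obtain ⟨K, hK⟩ := coreG (p := p) hp3 k n d e D δ hd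
  refine ⟨K, ?_⟩
  intro c hG L _ hL τ b hb α hα hαL G hGm hGδ r
  have hmap : ∀ i, map τ (map (Int.castRingHom ℂ) g * form b i) =
      map (Int.castRingHom (PadicAlgCl p)) g * map (algebraMap ℤ_[p] (PadicAlgCl p)) (form c i) := by
    intro i
    have h1 : τ.comp (Int.castRingHom ℂ) = Int.castRingHom (PadicAlgCl p) := RingHom.ext_int _ _
    rw [map_mul, map_map, h1, map_form, map_form]
    congr 2
    funext j
    exact hb j
  have hmap' : ∀ i, map τ (map (Int.castRingHom ℂ) g * form b i) =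
      map (algebraMap ℤ_[p] (PadicAlgCl p)) (map (Int.castRingHom ℤ_[p]) g * form c i) := by
    intro i
    have h1 : (algebraMap ℤ_[p] (PadicAlgCl p)).comp (Int.castRingHom ℤ_[p]) =
      Int.castRingHom (PadicAlgCl p) := RingHom.ext_int _ _
    rw [hmap, map_mul, map_map, h1]
  have hcoef : ∀ i t, τ (coeff t (map (Int.castRingHom ℂ) g * form b i)) =
      algebraMap ℤ_[p] (PadicAlgCl p) (coeff t (map (Int.castRingHom ℤ_[p]) g * form c i)) := by
    intro i t
    rw [← coeff_map, hmap', coeff_map]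
  refine hK L hL (fun _ => form b) (fun _ => form_isHomogeneous b)
    (fun _ => map (Int.castRingHom ℂ) g) (fun _ => hg.map _) τ (fun _ i t => ?_)
    (fun _ i t => ?_) (fun _ => ?_) α hα hαL G hGm hGδ r
  · rw [hcoef]
    have h1 : ∀ z : ℤ_[p], ‖algebraMap ℤ_[p] (PadicAlgCl p) z‖ ≤ 1 := by
      intro z
      have h2 : algebraMap ℤ_[p] (PadicAlgCl p) z = ((z : ℚ_[p]) : PadicAlgCl p) := rfl
      rw [h2, PadicAlgCl.norm_extends]
      exact z.norm_le_one
    exact h1 _
  · rw [hcoef]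
    have h1 : ∀ z : ℤ_[p], algebraMap ℤ_[p] (PadicAlgCl p) z ∈ L := fun z =>
      L.algebraMap_mem (z : ℚ_[p])
    exact h1 _
  · have h1 := goodPad_of_goodD (D := D) hg hpe hgx (F := form c) (form_isHomogeneous c) (by
      have h2 : (fun i => map PadicInt.toZMod (form c i)) = form fun i => PadicInt.toZMod (c i) :=
        funext fun i => map_form _ _ _
      rw [h2]
      exact hG) L hL
    have h2 : (fun i => map τ (map (Int.castRingHom ℂ) g * form b i)) = fun i =>
        map (Int.castRingHom (PadicAlgCl p)) g *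
          map (algebraMap ℤ_[p] (PadicAlgCl p)) (form c i) := funext hmap
    rw [h2]
    exact h1

/-- the residue classes of the generators at a prime for which the field embeds -/
theorem exists_residuesD (m : ℕ) (e : Fin m → ℂ) (he : e ≠ 0) (A : Finset ℂ)
    (heA : ∀ j, e j ∈ Subfield.closure (A : Set ℂ)) (D : ℕ) :
    ∃ A' : Finset ℂ, ∀ q ∈ primesFor A', 3 ≤ q → ∃ E : Fin m → ZMod q, E ≠ 0 ∧
      ∃ _ : Fact q.Prime, ∀ k n d δ : ℕ, 1 ≤ d → ∃ K : ℕ, ∀ c : Fin m × Idx n d → ℤ,
        GoodD D (form (lc E fun j => (c j : ZMod q))) →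
        ∀ E' : Subfield ℂ, PurelyTranscendental (Subfield.closure (A : Set ℂ)) E' →
        ∀ M : IntermediateField E' ℂ, FiniteDimensional E' M → Module.finrank E' M ≤ D →
        ∀ α : Fin k → Fin n → ℂ, (∀ b, α b ≠ 0) → (∀ b i, α b i ∈ M) →
        ∀ V : Set (MvPolynomial (Fin k × Fin n) ℂ), (∀ G ∈ V, MultiHom G) →
        (∀ G ∈ V, G.totalDegree ≤ δ) → ∀ r : ℕ,
        {j | pre k n q D + r + per k n q D * j ∈
          {j : ℕ | ∀ G ∈ V, eval (fun c' => (pmap (form (lc e fun j => (c j : ℂ))))^[j]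
            (α c'.1) c'.2) G = 0}}.encard ≤ K ∨
        ∀ j, pre k n q D + r + per k n q D * j ∈
          {j : ℕ | ∀ G ∈ V, eval (fun c' => (pmap (form (lc e fun j => (c j : ℂ))))^[j]
            (α c'.1) c'.2) G = 0} := by
  classical
  obtain ⟨j₀, hj₀⟩ := Function.ne_iff.1 he
  set A' : Finset ℂ := A ∪ (Finset.univ.image e ∪ {(e j₀)⁻¹}) with hA'
  refine ⟨A', fun q hq hq3 => ?_⟩
  obtain ⟨hF, ι, φ, hφ⟩ := exists_field_emb_compat A' q hq
  have hej : ∀ j, e j ∈ Subring.closure (A' : Set ℂ) := fun j =>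
    Subring.subset_closure (Finset.mem_coe.2 (Finset.mem_union_right _
      (Finset.mem_union_left _ (Finset.mem_image_of_mem _ (Finset.mem_univ j)))))
  have hinv : (e j₀)⁻¹ ∈ Subring.closure (A' : Set ℂ) :=
    Subring.subset_closure (Finset.mem_coe.2 (Finset.mem_union_right _
      (Finset.mem_union_right _ (Finset.mem_singleton_self _))))
  have hle : Subring.closure (A' : Set ℂ) ≤ (Subfield.closure (A' : Set ℂ)).toSubring :=
    Subfield.subring_closure_le _
  have hAsub : (A : Set ℂ) ⊆ (A' : Set ℂ) := by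
    rw [hA', Finset.coe_union]
    exact Set.subset_union_left
  have hAA' : Subfield.closure (A' : Set ℂ) = Subfield.closure (A : Set ℂ) := by
    refine le_antisymm ?_ (Subfield.closure_mono hAsub)
    rw [Subfield.closure_le]
    intro z hz
    rw [Finset.mem_coe, hA', Finset.mem_union, Finset.mem_union, Finset.mem_image,
      Finset.mem_singleton] at hz
    rcases hz with hz | ⟨j, -, rfl⟩ | rfl
    · exact Subfield.subset_closure hz
    · exact heA j
    · exact inv_mem (heA j₀)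
  refine ⟨fun j => PadicInt.toZMod (ι ⟨e j, hej j⟩), ?_, hF, ?_⟩
  · intro h0
    have h1 : (⟨e j₀, hej j₀⟩ : Subring.closure (A' : Set ℂ)) * ⟨(e j₀)⁻¹, hinv⟩ = 1 :=
      Subtype.ext (mul_inv_cancel₀ hj₀)
    have h2 := congrArg (fun z => PadicInt.toZMod (ι z)) h1
    simp only [map_mul, map_one] at h2
    have h3 := congrFun h0 j₀
    simp only [Pi.zero_apply] at h3
    rw [h3, zero_mul] at h2
    exact zero_ne_one h2
  intro k n d δ hd
  have hcL : ∀ j, e j ∈ Subfield.closure (A' : Set ℂ) := fun j => hle (hej j)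
  obtain ⟨K₁, hK⟩ := dich_of_goodD (p := q) hq3 k n d D δ hd
  refine ⟨K₁, ?_⟩
  intro c hG E' hE' M hMfin hMD α hα hαM V hV hVδ r
  obtain ⟨s, t, ht, hEt⟩ := hE'
  set cp : Idx n d → ℤ_[q] := lc (fun j => ι ⟨e j, hej j⟩) fun j => (c j : ℤ_[q]) with hcp
  have h1 : (form fun i => PadicInt.toZMod (cp i)) =
      form (lc (fun j => PadicInt.toZMod (ι ⟨e j, hej j⟩)) fun j => (c j : ZMod q)) := by
    congr 1
    funext i
    rw [hcp, lc, lc, map_sum]
    refine Finset.sum_congr rfl fun j _ => ?_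
    rw [map_mul, map_intCast]
  -- the embedding of the complex numbers
  have hcount : Countable (Subfield.closure (A' : Set ℂ)) := countable_closure A'
  obtain ⟨τ₀, hτ₀⟩ := exists_lift_complex (p := q) (K := Subfield.closure (A' : Set ℂ))
    ((algebraMap ℚ_[q] (PadicAlgCl q)).comp φ)
  have hτ₀' : ∀ z (hz : z ∈ Subfield.closure (A' : Set ℂ)),
      τ₀ z = algebraMap ℚ_[q] (PadicAlgCl q) (φ ⟨z, hz⟩) := fun z hz => hτ₀ ⟨z, hz⟩
  let K₀ : IntermediateField ℚ_[q] (PadicAlgCl q) := ⊥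
  have hK₀ : ∀ z : ℚ_[q], algebraMap ℚ_[q] (PadicAlgCl q) z ∈ K₀ := fun z =>
    IntermediateField.algebraMap_mem _ z
  have hK₀1 : Module.finrank ℚ_[q] K₀ = 1 := IntermediateField.finrank_bot
  have hK₀f : FiniteDimensional ℚ_[q] K₀ := Module.finite_of_finrank_eq_succ hK₀1
  rw [← hAA'] at ht
  obtain ⟨τ, hτ, hτt⟩ := exists_embedding (Subfield.closure (A' : Set ℂ))
    (Set.to_countable _) τ₀ K₀.toSubfield
    (aleph0_lt_intermediate K₀) (fun z hz => by rw [hτ₀' z hz]; exact hK₀ _) ht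
  have hEK : ∀ z ∈ E', τ z ∈ K₀ := by
    intro z hz
    have h2 : E' ≤ K₀.toSubfield.comap τ := by
      rw [hEt, Subfield.closure_le, ← hAA']
      rintro w (hw | ⟨i, rfl⟩)
      · have h3 : τ w ∈ K₀.toSubfield := by
          rw [hτ w hw, hτ₀' w hw]
          exact hK₀ _
        exact h3
      · exact hτt i
    exact h2 hz
  obtain ⟨L, hLfin, hLD, hML, hKL⟩ := exists_alg K₀ τ E' hEK M
  have hLD' : Module.finrank ℚ_[q] L ≤ D := by
    rw [hK₀1, one_mul] at hLD
    exact hLD.trans hMD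
  have hb : ∀ i, τ ((lc e fun j => (c j : ℂ)) i) = algebraMap ℤ_[q] (PadicAlgCl q) (cp i) := by
    intro i
    rw [hcp, lc, lc, map_sum, map_sum]
    refine Finset.sum_congr rfl fun j _ => ?_
    rw [map_mul, map_mul, map_intCast, map_intCast, hτ _ (hcL j), hτ₀' _ (hcL j),
      hφ _ (hej j) (hcL j)]
    rfl
  have h4 := hK cp (by rw [h1]; exact hG) L hLD' τ (lc e fun j => (c j : ℂ)) hb α hα
    (fun b i j => hML _ (div_mem (hαM b i) (hαM b j)))
  by_cases hall : ∀ G ∈ V, ∀ j, eval (fun c' => (pmap (form (lc e fun j => (c j : ℂ))))^[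
      pre k n q D + r + per k n q D * j] (α c'.1) c'.2) G = 0
  · right
    intro j G hGV
    exact hall G hGV j
  · left
    push Not at hall
    obtain ⟨G, hGV, j, hj⟩ := hall
    rcases h4 G (hV G hGV) (hVδ G hGV) r with h5 | h5
    · refine le_trans (Set.encard_le_encard ?_) h5
      intro j' hj'
      exact hj' G hGV
    · exact absurd (h5 j) hj

end

end Pool.Agent.Helper26.DG
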