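import Mathlib
import Pool.Agent.Helper26.DG.Res

/-!
# DG: almost all endomorphisms, points of bounded degree. Assembly
-/

set_option autoImplicit false

namespace Pool.Agent.Helper26.DG

open MvPolynomial
open Pool.Agent.Helper86.DML (pmap)
open Pool.Agent.Helper26.FU (MultiHom PurelyTranscendental)
open Pool.Agent.Helper87.LD
open Pool.Agent.Helper87.DMLP (primesFor not_summable_primesFor prime_of_mem_primesFor)

noncomputable section

/-- the density of the good tuples of forms: at least `1 / (C q)` -/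
def Cnt (n D : ℕ) : Prop :=
  ∃ C q₀ : ℕ, 1 ≤ C ∧ ∀ q : ℕ, q₀ ≤ q → ∀ _ : Fact q.Prime, ∃ d₁ : ℕ, ∀ d, d₁ ≤ d →
    q ^ Fintype.card (Idx n d) ≤ C * q * Nat.card {b : Idx n d → ZMod q // GoodD D (form b)}

/-- a finite set of large primes with small product -/
theorem exists_primes_prodC (Pri : Set ℕ) (hdiv : ¬ Summable (fun q : Pri => (1 : ℝ) / (q : ℕ)))
    (C q₀ : ℕ) (hC : 1 ≤ C) (η : ℝ) (hη : 0 < η) :
    ∃ P : Finset ℕ, (∀ q ∈ P, q ∈ Pri ∧ q₀ ≤ q) ∧
      ∏ q ∈ P, (1 - 1 / ((C : ℝ) * (q : ℝ))) ≤ η := by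
  classical
  have hC0 : (0 : ℝ) < C := by exact_mod_cast hC
  obtain ⟨u, hu⟩ : ∃ u : Finset Pri, (C : ℝ) * (-Real.log η) + (q₀ + 1 : ℕ) <
      ∑ q ∈ u, (1 : ℝ) / (q : ℕ) := by
    by_contra h
    push Not at h
    exact hdiv (summable_of_sum_le (fun q => by positivity) h)
  set U : Finset ℕ := u.image (fun q : Pri => (q : ℕ)) with hU
  have h2 : ∑ q ∈ u, (1 : ℝ) / (q : ℕ) = ∑ q ∈ U, (1 : ℝ) / q := by
    rw [hU, Finset.sum_image]
    intro a _ b _ hab
    exact Subtype.ext hab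
  rw [h2] at hu
  set P : Finset ℕ := U.filter (fun q => q₀ + 1 ≤ q) with hP
  have h3 : ∑ q ∈ U.filter (fun q => ¬ q₀ + 1 ≤ q), (1 : ℝ) / q ≤ (q₀ + 1 : ℕ) := by
    have h4 : U.filter (fun q => ¬ q₀ + 1 ≤ q) ⊆ Finset.range (q₀ + 1) := by
      intro q hq
      rw [Finset.mem_range]
      have := (Finset.mem_filter.1 hq).2
      omega
    calc ∑ q ∈ U.filter (fun q => ¬ q₀ + 1 ≤ q), (1 : ℝ) / q ≤
        ∑ q ∈ U.filter (fun q => ¬ q₀ + 1 ≤ q), (1 : ℝ) := by
          refine Finset.sum_le_sum fun q _ => ?_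
          rcases Nat.eq_zero_or_pos q with h0 | h0
          · simp [h0]
          · rw [div_le_one (by exact_mod_cast h0)]
            exact_mod_cast h0
      _ ≤ ∑ q ∈ Finset.range (q₀ + 1), (1 : ℝ) :=
          Finset.sum_le_sum_of_subset_of_nonneg h4 fun _ _ _ => zero_le_one
      _ = (q₀ + 1 : ℕ) := by simp
  have h5 : (C : ℝ) * (-Real.log η) < ∑ q ∈ P, (1 : ℝ) / q := by
    have := Finset.sum_filter_add_sum_filter_not U (fun q => q₀ + 1 ≤ q) (fun q => (1 : ℝ) / q)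
    rw [← this] at hu
    linarith
  refine ⟨P, ?_, ?_⟩
  · intro q hq
    have h6 := Finset.mem_filter.1 hq
    obtain ⟨r, _, hr⟩ := Finset.mem_image.1 h6.1
    exact ⟨hr ▸ r.2, by omega⟩
  · calc ∏ q ∈ P, (1 - 1 / ((C : ℝ) * (q : ℝ))) ≤
        ∏ q ∈ P, Real.exp (-(1 / ((C : ℝ) * (q : ℝ)))) := by
          refine Finset.prod_le_prod (fun q hq => ?_) fun q _ => ?_
          · have h6 : q₀ + 1 ≤ q := (Finset.mem_filter.1 hq).2
            have h7 : (1 : ℝ) ≤ q := by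
              have : 1 ≤ q := by omega
              exact_mod_cast this
            have h8 : (1 : ℝ) ≤ C := by exact_mod_cast hC
            rw [sub_nonneg, div_le_one (by positivity)]
            nlinarith
          · have := Real.add_one_le_exp (-(1 / ((C : ℝ) * (q : ℝ))))
            linarith
      _ = Real.exp (-((1 / (C : ℝ)) * ∑ q ∈ P, (1 : ℝ) / q)) := by
          rw [← Real.exp_sum]
          congr 1
          rw [Finset.mul_sum, ← Finset.sum_neg_distrib]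
          refine Finset.sum_congr rfl fun q _ => ?_
          rw [one_div_mul_one_div]
      _ ≤ Real.exp (Real.log η) := by
          refine Real.exp_le_exp.2 ?_
          have h9 : -Real.log η < (1 / (C : ℝ)) * ∑ q ∈ P, (1 : ℝ) / q := by
            rw [one_div, inv_mul_eq_div, lt_div_iff₀ hC0]
            linarith
          linarith
      _ = η := Real.exp_log hη

/-- the bad residue classes -/
def BadD (n d m q D : ℕ) (e : Fin m → ZMod q) : Set (Fin m × Idx n d → ZMod q) :=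
  {c | ¬ GoodD D (form (lc e c))}

theorem badD_ncard {n D C : ℕ} (hC : 1 ≤ C) {q : ℕ} [hq : Fact q.Prime] (d m : ℕ)
    (h1 : q ^ Fintype.card (Idx n d) ≤ C * q *
      Nat.card {b : Idx n d → ZMod q // GoodD D (form b)})
    (e : Fin m → ZMod q) (he : e ≠ 0) :
    ((BadD n d m q D e).ncard : ℝ) ≤
      (1 - 1 / ((C : ℝ) * (q : ℝ))) * (q : ℝ) ^ Fintype.card (Fin m × Idx n d) := by
  classical
  obtain ⟨j₀, hj₀⟩ := Function.ne_iff.1 he
  let f : (Fin m × Idx n d → ZMod q) →+ (Idx n d → ZMod q) :=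
    { toFun := fun c => lc e c
      map_zero' := by
        funext i
        simp [lc]
      map_add' := fun a b => by
        funext i
        simp [lc, mul_add, Finset.sum_add_distrib] }
  have hsurj : ∀ b : Idx n d → ZMod q, b ∈ Set.range f := by
    intro b
    refine ⟨fun j => if j.1 = j₀ then (e j₀)⁻¹ * b j.2 else 0, ?_⟩
    funext i
    change lc e (fun j : Fin m × Idx n d => if j.1 = j₀ then (e j₀)⁻¹ * b j.2 else 0) i = b i
    rw [lc, Finset.sum_eq_single j₀]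
    · simp only [if_true]
      rw [mul_inv_cancel_left₀ hj₀]
    · intro j _ hj
      simp [hj]
    · intro h
      exact absurd (Finset.mem_univ _) h
  set T : Finset (Idx n d → ZMod q) := Finset.univ.filter fun b => GoodD D (form b) with hT
  have h2 := fib_card f Finset.univ T (fun b _ => hsurj b) (fun _ => Finset.mem_univ _)
    (Finset.subset_univ _)
  rw [Finset.card_univ, Fintype.card_fun, Fintype.card_fun, ZMod.card] at h2
  set U : Finset (Fin m × Idx n d → ZMod q) := Finset.univ.filter (fun a => f a ∈ T) with hU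
  have h3 : BadD n d m q D e = (↑U : Set (Fin m × Idx n d → ZMod q))ᶜ := by
    ext c
    rw [Set.mem_compl_iff, Finset.mem_coe, hU, Finset.mem_filter, hT, Finset.mem_filter]
    constructor
    · rintro h ⟨_, _, h'⟩
      exact h h'
    · rintro h h'
      exact h ⟨Finset.mem_univ _, Finset.mem_univ _, h'⟩
  have h4 := Set.ncard_add_ncard_compl (↑U : Set (Fin m × Idx n d → ZMod q))
  rw [← h3, Set.ncard_coe_finset, Nat.card_eq_fintype_card, Fintype.card_fun, ZMod.card] at h4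
  have h5 : Nat.card {b : Idx n d → ZMod q // GoodD D (form b)} = T.card := by
    rw [Nat.card_eq_fintype_card, Fintype.card_subtype]
  rw [h5] at h1
  have hq0 : (0 : ℝ) < q := by exact_mod_cast hq.out.pos
  have hC0 : (0 : ℝ) < C := by exact_mod_cast hC
  have h6 : (q : ℝ) ^ Fintype.card (Idx n d) ≤ C * q * (T.card : ℝ) := by exact_mod_cast h1
  have h9 : (U.card : ℝ) + ((BadD n d m q D e).ncard : ℝ) =
      (q : ℝ) ^ Fintype.card (Fin m × Idx n d) := by exact_mod_cast h4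
  have h10 : (U.card : ℝ) * (q : ℝ) ^ Fintype.card (Idx n d) =
      (q : ℝ) ^ Fintype.card (Fin m × Idx n d) * T.card := by exact_mod_cast h2
  have h11 : 1 / ((C : ℝ) * (q : ℝ)) * (q : ℝ) ^ Fintype.card (Fin m × Idx n d) ≤
      (U.card : ℝ) := by
    rw [one_div, inv_mul_le_iff₀ (by positivity)]
    have hpos : (0 : ℝ) < (q : ℝ) ^ Fintype.card (Idx n d) := by positivity
    refine le_of_mul_le_mul_right ?_ hpos
    have h12 := mul_le_mul_of_nonneg_left h6
      (by positivity : (0 : ℝ) ≤ (q : ℝ) ^ Fintype.card (Fin m × Idx n d))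
    calc (q : ℝ) ^ Fintype.card (Fin m × Idx n d) * (q : ℝ) ^ Fintype.card (Idx n d)
        ≤ (q : ℝ) ^ Fintype.card (Fin m × Idx n d) * (C * q * (T.card : ℝ)) := h12
      _ = C * q * ((q : ℝ) ^ Fintype.card (Fin m × Idx n d) * T.card) := by ring
      _ = C * q * (U.card : ℝ) * (q : ℝ) ^ Fintype.card (Idx n d) := by rw [← h10]; ring
  linarith

/-- **Main theorem.** -/
theorem ldd_main (n D : ℕ) (hcnt : Cnt n D) (m : ℕ) (e : Fin m → ℂ) (he : e ≠ 0) (A : Finset ℂ)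
    (heA : ∀ j, e j ∈ Subfield.closure (A : Set ℂ)) (ε : ℝ) (hε : 0 < ε) :
    ∃ (d₀ : ℕ) (n₀ Q : ℕ → ℕ), (∀ k, 1 ≤ Q k) ∧ ∀ d : ℕ, d₀ ≤ d →
      ∃ (K : ℕ → ℕ → ℕ) (B₀ : ℕ), ∀ B : ℕ, B₀ ≤ B →
      (1 - ε) * (2 * (B : ℝ) + 1) ^ Fintype.card (Fin m × Idx n d) ≤
        ({c : Fin m × Idx n d → ℤ | (∀ i, |c i| ≤ (B : ℤ)) ∧
          (∀ z : Fin n → ℂ, (∀ i, eval z (form (lc e fun j => (c j : ℂ)) i) = 0) → z = 0) ∧
          ∀ (k : ℕ) (E' : Subfield ℂ), PurelyTranscendental (Subfield.closure (A : Set ℂ)) E' →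
            ∀ M : IntermediateField E' ℂ, FiniteDimensional E' M → Module.finrank E' M ≤ D →
            ∀ α : Fin k → Fin n → ℂ, (∀ b, α b ≠ 0) → (∀ b i, α b i ∈ M) →
            ∀ (δ : ℕ) (V : Set (MvPolynomial (Fin k × Fin n) ℂ)), (∀ G ∈ V, MultiHom G) →
              (∀ G ∈ V, G.totalDegree ≤ δ) →
              IsAPU (n₀ k) (Q k) (K k δ) {j : ℕ | ∀ G ∈ V,
                eval (fun c' => (pmap (form (lc e fun j => (c j : ℂ))))^[j]
                  (α c'.1) c'.2) G = 0}}.ncard : ℝ) := by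
  classical
  obtain ⟨C, q₀, hC, hcnt⟩ := hcnt
  obtain ⟨A', hA'⟩ := exists_residuesD m e he A heA D
  obtain ⟨P, hP, hprod⟩ := exists_primes_prodC (primesFor A') (not_summable_primesFor A')
    C (q₀ + 3) hC (ε / 3) (by linarith)
  have hPprime : ∀ q ∈ P, q.Prime := fun q hq => prime_of_mem_primesFor A' q (hP q hq).1
  have hmex : ∀ q : ℕ, ∃ d₁ : ℕ, q ∈ P → ∀ _ : Fact q.Prime, ∀ d, d₁ ≤ d →
      q ^ Fintype.card (Idx n d) ≤ C * q *
        Nat.card {b : Idx n d → ZMod q // GoodD D (form b)} := by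
    intro q
    by_cases hq : q ∈ P
    · obtain ⟨d₁, h1⟩ := hcnt q (by have := (hP q hq).2; omega) ⟨hPprime q hq⟩
      exact ⟨d₁, fun _ _ => h1⟩
    · exact ⟨0, fun h => absurd h hq⟩
  choose mq hmq using hmex
  have hEex : ∀ q : ℕ, ∃ E : Fin m → ZMod q, q ∈ P → (E ≠ 0 ∧
      ∃ _ : Fact q.Prime, ∀ k n d δ : ℕ, 1 ≤ d → ∃ K : ℕ, ∀ c : Fin m × Idx n d → ℤ,
        GoodD D (form (lc E fun j => (c j : ZMod q))) →
        ∀ E' : Subfield ℂ, PurelyTranscendental (Subfield.closure (A : Set ℂ)) E' →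
        ∀ M : IntermediateField E' ℂ, FiniteDimensional E' M → Module.finrank E' M ≤ D →
        ∀ α : Fin k → Fin n → ℂ, (∀ b, α b ≠ 0) → (∀ b i, α b i ∈ M) →
        ∀ V : Set (MvPolynomial (Fin k × Fin n) ℂ), (∀ G ∈ V, MultiHom G) →
        (∀ G ∈ V, G.totalDegree ≤ δ) → ∀ r : ℕ,
        {j | pre k n q D + r + per k n q D * j ∈
          {j : ℕ | ∀ G ∈ V, eval (fun c' => (pmap (form (lc e fun j => (c j : ℂ))))^[j]
            (α c'.1) c'.2) G = 0}}.encard ≤ K ∨
        ∀ j, pre k n q D + r + per k n q D * j ∈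
          {j : ℕ | ∀ G ∈ V, eval (fun c' => (pmap (form (lc e fun j => (c j : ℂ))))^[j]
            (α c'.1) c'.2) G = 0}) := by
    intro q
    by_cases hq : q ∈ P
    · obtain ⟨E, hE⟩ := hA' q (hP q hq).1 (by have := (hP q hq).2; omega)
      exact ⟨E, fun _ => hE⟩
    · exact ⟨0, fun h => absurd h hq⟩
  choose E hE using hEex
  have hQpos : ∀ k, 1 ≤ ∏ q ∈ P, per k n q D := fun k =>
    Nat.succ_le_of_lt (Finset.prod_pos fun q _ => per_pos k n q D)
  refine ⟨(∑ q ∈ P, mq q) + 1, fun k => ∑ q ∈ P, pre k n q D, fun k => ∏ q ∈ P, per k n q D,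
    hQpos, fun d hd => ?_⟩
  have hKex : ∀ q k δ : ℕ, ∃ K : ℕ, q ∈ P → ∀ c : Fin m × Idx n d → ℤ,
        GoodD D (form (lc (E q) fun j => (c j : ZMod q))) →
        ∀ E' : Subfield ℂ, PurelyTranscendental (Subfield.closure (A : Set ℂ)) E' →
        ∀ M : IntermediateField E' ℂ, FiniteDimensional E' M → Module.finrank E' M ≤ D →
        ∀ α : Fin k → Fin n → ℂ, (∀ b, α b ≠ 0) → (∀ b i, α b i ∈ M) →
        ∀ V : Set (MvPolynomial (Fin k × Fin n) ℂ), (∀ G ∈ V, MultiHom G) →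
        (∀ G ∈ V, G.totalDegree ≤ δ) → ∀ r : ℕ,
        {j | pre k n q D + r + per k n q D * j ∈
          {j : ℕ | ∀ G ∈ V, eval (fun c' => (pmap (form (lc e fun j => (c j : ℂ))))^[j]
            (α c'.1) c'.2) G = 0}}.encard ≤ K ∨
        ∀ j, pre k n q D + r + per k n q D * j ∈
          {j : ℕ | ∀ G ∈ V, eval (fun c' => (pmap (form (lc e fun j => (c j : ℂ))))^[j]
            (α c'.1) c'.2) G = 0} := by
    intro q k δ
    by_cases hq : q ∈ P
    · obtain ⟨_, hfinal⟩ := (hE q hq).2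
      obtain ⟨K, hK⟩ := hfinal k n d δ (by omega)
      exact ⟨K, fun _ => hK⟩
    · exact ⟨0, fun h => absurd h hq⟩
  choose Kq hKq using hKex
  refine ⟨fun k δ => (∑ q ∈ P, pre k n q D) + (∏ q ∈ P, per k n q D) * ∑ q ∈ P, Kq q k δ, ?_⟩
  have hdq : ∀ q ∈ P, mq q ≤ d := fun q hq =>
    (Finset.single_le_sum (fun _ _ => Nat.zero_le _) hq).trans (by omega)
  obtain ⟨B₁, hB₁⟩ := sieve_box (ι := Fin m × Idx n d) P hPprime
    (fun q => BadD n d m q D (E q)) (fun q => 1 / ((C : ℝ) * (q : ℝ)))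
    (fun q hq => by
      haveI := Fact.mk (hPprime q hq)
      exact badD_ncard hC d m (hmq q hq inferInstance d (hdq q hq)) (E q) (hE q hq).1)
    (ε / 3) (by linarith)
  obtain ⟨B₂, hB₂⟩ := endo_boxC n d m e he (ε / 3) (by linarith)
  refine ⟨max B₁ B₂, fun B hB => ?_⟩
  have h1 := hB₁ B ((le_max_left _ _).trans hB)
  have h2 := hB₂ B ((le_max_right _ _).trans hB)
  set X : Set (Fin m × Idx n d → ℤ) := {c | (∀ i, |c i| ≤ (B : ℤ)) ∧
    ∀ p ∈ P, (fun i => (c i : ZMod p)) ∈ BadD n d m p D (E p)} with hX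
  set Y : Set (Fin m × Idx n d → ℤ) := {c | (∀ i, |c i| ≤ (B : ℤ)) ∧
    ¬ ∀ z : Fin n → ℂ, (∀ i, eval z (form (lc e fun j => (c j : ℂ)) i) = 0) → z = 0} with hY
  set Z : Set (Fin m × Idx n d → ℤ) := {c : Fin m × Idx n d → ℤ | (∀ i, |c i| ≤ (B : ℤ)) ∧
    (∀ z : Fin n → ℂ, (∀ i, eval z (form (lc e fun j => (c j : ℂ)) i) = 0) → z = 0) ∧
      ∀ (k : ℕ) (E' : Subfield ℂ), PurelyTranscendental (Subfield.closure (A : Set ℂ)) E' →
        ∀ M : IntermediateField E' ℂ, FiniteDimensional E' M → Module.finrank E' M ≤ D →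
        ∀ α : Fin k → Fin n → ℂ, (∀ b, α b ≠ 0) → (∀ b i, α b i ∈ M) →
        ∀ (δ : ℕ) (V : Set (MvPolynomial (Fin k × Fin n) ℂ)), (∀ G ∈ V, MultiHom G) →
          (∀ G ∈ V, G.totalDegree ≤ δ) →
          IsAPU (∑ q ∈ P, pre k n q D) (∏ q ∈ P, per k n q D)
            ((∑ q ∈ P, pre k n q D) + (∏ q ∈ P, per k n q D) * ∑ q ∈ P, Kq q k δ)
            {j : ℕ | ∀ G ∈ V, eval (fun c' => (pmap (form (lc e fun j => (c j : ℂ))))^[j]
              (α c'.1) c'.2) G = 0}} with hZ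
  have hfin := box_finite (ι := Fin m × Idx n d) B
  have hsub : {c : Fin m × Idx n d → ℤ | ∀ i, |c i| ≤ (B : ℤ)} ⊆ Z ∪ (X ∪ Y) := by
    intro c hc
    by_cases hcY : c ∈ Y
    · exact Or.inr (Or.inr hcY)
    by_cases hcX : c ∈ X
    · exact Or.inr (Or.inl hcX)
    left
    refine ⟨hc, ?_, ?_⟩
    · by_contra hcon
      exact hcY ⟨hc, hcon⟩
    · have h3 : ∃ q ∈ P, GoodD D (form (lc (E q) fun j => (c j : ZMod q))) := by
        by_contra hcon
        refine hcX ⟨hc, fun q hq h => ?_⟩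
        exact hcon ⟨q, hq, h⟩
      obtain ⟨q, hq, hgood⟩ := h3
      intro k E' hE' M hMfin hMD α hα hαM δ V hV hVδ
      refine isAPU_of_dich _ (hQpos k) fun r => ?_
      refine dich_monoU (n₁ := pre k n q D) (Q₁ := per k n q D)
        (Finset.single_le_sum (f := fun q => pre k n q D) (fun _ _ => Nat.zero_le _) hq)
        (hQpos k) (Finset.dvd_prod_of_mem (fun q => per k n q D) hq) (fun r => ?_) r
      rcases hKq q k δ hq c hgood E' hE' M hMfin hMD α hα hαM V hV hVδ r with h4 | h4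
      · left
        have h5 : Kq q k δ ≤ ∑ q ∈ P, Kq q k δ :=
          Finset.single_le_sum (f := fun q => Kq q k δ) (fun _ _ => Nat.zero_le _) hq
        have h6 : ((Kq q k δ : ℕ) : ℕ∞) ≤ ((∑ q ∈ P, Kq q k δ : ℕ) : ℕ∞) := by exact_mod_cast h5
        exact h4.trans h6
      · exact Or.inr h4
  have h3 : ({c : Fin m × Idx n d → ℤ | ∀ i, |c i| ≤ (B : ℤ)}.ncard : ℝ) ≤
      (Z.ncard : ℝ) + ((X.ncard : ℝ) + (Y.ncard : ℝ)) := by
    have hfin' : (Z ∪ (X ∪ Y)).Finite := by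
      refine hfin.subset ?_
      rintro c (hc | hc | hc)
      · exact hc.1
      · exact hc.1
      · exact hc.1
    have h4 := (Set.ncard_le_ncard hsub hfin').trans ((Set.ncard_union_le _ _).trans
      (Nat.add_le_add_left (Set.ncard_union_le _ _) _))
    exact_mod_cast h4
  rw [box_ncard] at h3
  have h5 : 0 ≤ (2 * (B : ℝ) + 1) ^ Fintype.card (Fin m × Idx n d) := by positivity
  have h6 := mul_le_mul_of_nonneg_right hprod h5
  rw [add_mul] at h1
  linarith

end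

end Pool.Agent.Helper26.DG
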