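import Mathlib
import Pool.Agent.Helper26.DG.Main

/-!
# DG: the case `D = 1`
-/

set_option autoImplicit false

namespace Pool.Agent.Helper26.DG

open MvPolynomial
open Pool.Agent.Helper87.LD

theorem ev_map {n : ℕ} {k κ : Type*} [Field k] [Field κ] (φ : k →+* κ)
    (F : Fin n → MvPolynomial (Fin n) k) (y : Fin n → k) :
    ev (fun i => map φ (F i)) (fun i => φ (y i)) = fun i => φ (ev F y i) := by
  funext i
  rw [ev, ev, eval_map, eval₂_comp]
  rfl

theorem ev_map_iterate {n : ℕ} {k κ : Type*} [Field k] [Field κ] (φ : k →+* κ)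
    (F : Fin n → MvPolynomial (Fin n) k) (m : ℕ) (y : Fin n → k) :
    (ev fun i => map φ (F i))^[m] (fun i => φ (y i)) = fun i => φ ((ev F)^[m] y i) := by
  induction m generalizing y with
  | zero => rfl
  | succ m ih => rw [Function.iterate_succ_apply, ev_map, ih, Function.iterate_succ_apply]

/-- good tuples remain good under isomorphisms of the fields -/
theorem good_of_surjective {n : ℕ} {k κ : Type*} [Field k] [Field κ] (φ : k →+* κ)
    (hφ : Function.Surjective φ) {F : Fin n → MvPolynomial (Fin n) k} (h : Good F) :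
    Good fun i => map φ (F i) := by
  intro x hx
  choose y hy using fun i => hφ (x i)
  have hxy : x = fun i => φ (y i) := funext fun i => (hy i).symm
  have hy0 : y ≠ 0 := by
    intro h0
    apply hx
    rw [hxy, h0]
    funext i
    exact map_zero φ
  obtain ⟨h1, h2⟩ := h y hy0
  constructor
  · rw [hxy, ev_map]
    intro h0
    apply h1
    funext i
    exact (map_eq_zero φ).1 (congrFun h0 i)
  · rintro ⟨m, hm, t, ht, hper⟩
    obtain ⟨s, rfl⟩ := hφ t
    have hs : s ≠ 0 := by
      rintro rfl
      exact ht (map_zero φ)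
    have hE := h2 ⟨m, hm, s, hs, by
      rw [hxy, ev_map_iterate] at hper
      funext i
      apply φ.injective
      have h3 := congrFun hper i
      simp only [Pi.smul_apply, smul_eq_mul] at h3 ⊢
      rw [h3, map_mul]⟩
    intro z ⟨u, hu⟩
    choose w hw using fun i => hφ (z i)
    obtain ⟨u', rfl⟩ := hφ u
    have hzw : z = fun i => φ (w i) := funext fun i => (hw i).symm
    obtain ⟨v, hv⟩ := hE w ⟨u', by
      funext i
      apply φ.injective
      have h3 := congrFun hu i
      rw [hxy, ev_map] at h3
      simp only [Matrix.mulVec, dotProduct, jac, Matrix.of_apply, Pi.smul_apply, smul_eq_mul] at h3 ⊢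
      rw [map_mul, ← h3, map_sum]
      refine Finset.sum_congr rfl fun j _ => ?_
      rw [map_mul, hzw, pderiv_map, eval_map, eval₂_comp]
      rfl⟩
    refine ⟨φ v, ?_⟩
    rw [hzw, hxy, hv]
    funext i
    simp only [Pi.smul_apply, smul_eq_mul, map_mul]

theorem goodD_one {n p : ℕ} [hp : Fact p.Prime] {F : Fin n → MvPolynomial (Fin n) (ZMod p)}
    (h : Good F) : GoodD 1 F := by
  intro κ _ _ φ hκ
  refine good_of_surjective φ ?_ h
  have := Fintype.ofFinite κ
  have h1 : Fintype.card κ ≤ Fintype.card (ZMod p) := by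
    rw [ZMod.card, ← Nat.card_eq_fintype_card]
    rwa [pow_one] at hκ
  have h2 := Fintype.card_le_of_injective φ φ.injective
  exact ((Fintype.bijective_iff_injective_and_card φ).2 ⟨φ.injective, le_antisymm h2 h1⟩).2

theorem cnt_one {n : ℕ} (hn : n = 3 ∨ n = 4) : Cnt n 1 := by
  classical
  refine ⟨4096, 5, by norm_num, fun q hq hF => ?_⟩
  refine ⟨2 * Nat.card (Projectivization (ZMod q) (Fin n → ZMod q)), fun d hd => ?_⟩
  have h1 := good_density (n := n) (by omega) hq d hd
  have h7 : q ^ (n - 3) ≤ q := by
    rcases hn with rfl | rfl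
    · simp only [Nat.sub_self, pow_zero]
      omega
    · simp
  have h8 : Nat.card {c : Idx n d → ZMod q // Good (form c)} ≤
      Nat.card {b : Idx n d → ZMod q // GoodD 1 (form b)} :=
    Nat.card_le_card_of_injective (fun c => ⟨c.1, goodD_one c.2⟩) fun a b hab =>
      Subtype.ext (congrArg (fun z => z.1) hab)
  exact h1.trans (Nat.mul_le_mul (Nat.mul_le_mul_left _ h7) h8)

end Pool.Agent.Helper26.DG
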